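import Pool.Agent.R345.HM1

/-! # Surjections onto a finite abelian group and torsion; Hoelder's inequality for several factors -/

set_option autoImplicit false

namespace Pool.Agent.K1H95.HM

open Pool.Agent.R345.HM

/-- The number of surjective homomorphisms from the `p`-primary part of a finite abelian group `G` to the product of
cyclic groups of orders `p ^ e i` is at most the product of the numbers of the elements killed by `p ^ e i`. -/
theorem card_sur_le_prod (G : Type*) [CommGroup G] [Finite G] (p : ℕ) (hp : p.Prime) (r : ℕ) (e : Fin r → ℕ) :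
    Nat.card {φ : CommGroup.primaryComponent G p →* (∀ i : Fin r, Multiplicative (ZMod (p ^ e i))) //
      Function.Surjective φ} ≤ ∏ i, Nat.card {x : G // x ^ (p ^ e i) = 1} := by
  classical
  have : ∀ i, NeZero (p ^ e i) := fun i => ⟨pow_ne_zero _ hp.ne_zero⟩
  have hfin : ∀ i, Finite (CommGroup.primaryComponent G p →* Multiplicative (ZMod (p ^ e i))) := fun i =>
    Finite.of_injective (fun φ : CommGroup.primaryComponent G p →* Multiplicative (ZMod (p ^ e i)) => (φ : _ → _))
      DFunLike.coe_injective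
  have h1 : Nat.card {φ : CommGroup.primaryComponent G p →* (∀ i : Fin r, Multiplicative (ZMod (p ^ e i))) //
      Function.Surjective φ} ≤ Nat.card (∀ i : Fin r, (CommGroup.primaryComponent G p →* Multiplicative (ZMod (p ^ e i)))) := by
    refine Nat.card_le_card_of_injective (fun φ i => (Pi.evalMonoidHom (fun i : Fin r => Multiplicative (ZMod (p ^ e i))) i).comp φ.1) ?_
    intro φ ψ h
    apply Subtype.ext
    ext a i
    have h2 := congrFun h i
    have h3 := DFunLike.congr_fun h2 a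
    exact h3
  refine h1.trans ?_
  rw [Nat.card_pi]
  refine Finset.prod_le_prod' fun i _ => ?_
  refine (card_hom_zmod_le _ _).trans ?_
  refine Nat.card_le_card_of_injective (fun x => ⟨(x.1 : G), ?_⟩) ?_
  · have := congrArg (Subgroup.subtype _) x.2
    rw [map_pow, map_one] at this
    exact this
  · intro x y h
    have h' := Subtype.ext_iff.1 h
    exact Subtype.ext (Subtype.ext h')

/-- Hoelder's inequality for `r` factors. -/
theorem sum_prod_le {ι : Type*} (S : Finset ι) (r : ℕ) (hr : 1 ≤ r) (a : Fin r → ι → ℝ) (ha : ∀ i D, 0 ≤ a i D)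
    (B : Fin r → ℝ) (hB : ∀ i, 0 < B i) (h : ∀ i, ∑ D ∈ S, a i D ^ r ≤ B i) :
    ∑ D ∈ S, ∏ i, a i D ≤ ∏ i, (B i) ^ (1 / (r : ℝ)) := by
  have hr0 : (0 : ℝ) < r := by exact_mod_cast hr
  have hrn : r ≠ 0 := by omega
  set l : Fin r → ℝ := fun i => (B i) ^ (1 / (r : ℝ)) with hl
  have hl0 : ∀ i, 0 < l i := fun i => Real.rpow_pos_of_pos (hB i) _
  have hlr : ∀ i, l i ^ r = B i := by
    intro i
    rw [hl]
    simp only
    rw [one_div, Real.rpow_inv_natCast_pow (hB i).le hrn]
  have hP : 0 < ∏ i, l i := Finset.prod_pos fun i _ => hl0 i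
  have key : ∀ D ∈ S, ∏ i, a i D ≤ (∏ i, l i) * ∑ i, (1 / (r : ℝ)) * (a i D ^ r / B i) := by
    intro D _
    have hag := Real.geom_mean_le_arith_mean_weighted (Finset.univ : Finset (Fin r)) (fun _ => 1 / (r : ℝ))
      (fun i => (a i D / l i) ^ r) (fun _ _ => by positivity)
      (by rw [Finset.sum_const, Finset.card_univ, Fintype.card_fin, nsmul_eq_mul]; field_simp)
      (fun i _ => pow_nonneg (div_nonneg (ha i D) (hl0 i).le) _)
    have h1 : ∏ i, ((a i D / l i) ^ r) ^ (1 / (r : ℝ)) = (∏ i, a i D) / ∏ i, l i := by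
      rw [← Finset.prod_div_distrib]
      refine Finset.prod_congr rfl fun i _ => ?_
      rw [one_div, Real.pow_rpow_inv_natCast (div_nonneg (ha i D) (hl0 i).le) hrn]
    rw [h1, div_le_iff₀ hP] at hag
    calc ∏ i, a i D ≤ (∑ i, (1 / (r : ℝ)) * (a i D / l i) ^ r) * ∏ i, l i := hag
      _ = (∏ i, l i) * ∑ i, (1 / (r : ℝ)) * (a i D ^ r / B i) := by
          rw [mul_comm]
          congr 1
          refine Finset.sum_congr rfl fun i _ => ?_
          rw [div_pow, hlr]
  calc ∑ D ∈ S, ∏ i, a i D ≤ ∑ D ∈ S, (∏ i, l i) * ∑ i, (1 / (r : ℝ)) * (a i D ^ r / B i) := Finset.sum_le_sum key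
    _ = (∏ i, l i) * ∑ i, (1 / (r : ℝ)) * ((∑ D ∈ S, a i D ^ r) / B i) := by
        rw [← Finset.mul_sum, Finset.sum_comm]
        congr 1
        refine Finset.sum_congr rfl fun i _ => ?_
        rw [← Finset.mul_sum, Finset.sum_div]
    _ ≤ (∏ i, l i) * ∑ i : Fin r, (1 / (r : ℝ)) * 1 := by
        refine mul_le_mul_of_nonneg_left (Finset.sum_le_sum fun i _ => ?_) hP.le
        exact mul_le_mul_of_nonneg_left ((div_le_one (hB i)).2 (h i)) (by positivity)
    _ = ∏ i, l i := by
        rw [Finset.sum_const, Finset.card_univ, Fintype.card_fin, nsmul_eq_mul]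
        field_simp

/-- bounds of the form `c i * A * g i ^ r` -/
theorem prod_short (r : ℕ) (hr : 1 ≤ r) (c g : Fin r → ℝ) (A : ℝ) (hc : ∀ i, 0 < c i) (hg : ∀ i, 0 ≤ g i)
    (hA : 0 ≤ A) :
    ∏ i, (c i * A * g i ^ r) ^ (1 / (r : ℝ)) = (∏ i, c i ^ (1 / (r : ℝ))) * A * ∏ i, g i := by
  have hr0 : (0 : ℝ) < r := by exact_mod_cast hr
  have hrn : r ≠ 0 := by omega
  have h1 : ∀ i, (c i * A * g i ^ r) ^ (1 / (r : ℝ)) = c i ^ (1 / (r : ℝ)) * A ^ (1 / (r : ℝ)) * g i := by
    intro i
    rw [Real.mul_rpow (mul_nonneg (hc i).le hA) (pow_nonneg (hg i) _), Real.mul_rpow (hc i).le hA]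
    congr 1
    rw [one_div, Real.pow_rpow_inv_natCast (hg i) hrn]
  rw [Finset.prod_congr rfl fun i _ => h1 i, Finset.prod_mul_distrib, Finset.prod_mul_distrib, Finset.prod_const,
    Finset.card_univ, Fintype.card_fin, one_div, Real.rpow_inv_natCast_pow hA hrn]

/-- bounds of the form `c i * X ^ t i` -/
theorem prod_full (r : ℕ) (c t : Fin r → ℝ) (X : ℝ) (hc : ∀ i, 0 < c i) (hX : 0 < X) :
    ∏ i, (c i * X ^ t i) ^ (1 / (r : ℝ)) = (∏ i, c i ^ (1 / (r : ℝ))) * X ^ ((∑ i, t i) / r) := by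
  have h1 : ∀ i, (c i * X ^ t i) ^ (1 / (r : ℝ)) = c i ^ (1 / (r : ℝ)) * X ^ (t i / r) := by
    intro i
    rw [Real.mul_rpow (hc i).le (Real.rpow_nonneg hX.le _), ← Real.rpow_mul hX.le]
    congr 2
    ring
  rw [Finset.prod_congr rfl fun i _ => h1 i, Finset.prod_mul_distrib]
  congr 1
  rw [Finset.sum_div, Real.rpow_sum_of_pos hX]

end Pool.Agent.K1H95.HM
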