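import Pool.Agent.K1H95.HM.Alg

/-! # `H`-moments and torsion moments -/

set_option autoImplicit false

namespace Pool.Agent.K1H95.HM

open NumberField

/-- the number of the elements of the class group killed by `l` -/
noncomputable def tors (K : Type) [Field K] [NumberField K] (l : ℕ) : ℝ :=
  (Nat.card {c : ClassGroup (𝓞 K) // c ^ l = 1} : ℝ)

/-- the step from the torsion moments to the `H`-moments -/
lemma sum_sur_le (S : Finset ℤ) (K : ℤ → Type) [∀ D, Field (K D)] [∀ D, NumberField (K D)] (p : ℕ) (hp : p.Prime)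
    {r : ℕ} (hr : 1 ≤ r) (e : Fin r → ℕ) (B : Fin r → ℝ) (hB : ∀ i, 0 < B i)
    (h : ∀ i, ∑ D ∈ S, tors (K D) (p ^ e i) ^ r ≤ B i) :
    ∑ D ∈ S, ((Nat.card {φ : CommGroup.primaryComponent (ClassGroup (𝓞 (K D))) p →*
      (∀ i : Fin r, Multiplicative (ZMod (p ^ e i))) // Function.Surjective φ} : ℕ) : ℝ) ≤
      ∏ i, (B i) ^ (1 / (r : ℝ)) := by
  refine (Finset.sum_le_sum fun D _ => ?_).trans
    (sum_prod_le S r hr (fun i D => tors (K D) (p ^ e i)) (fun i D => by unfold tors; positivity) B hB h)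
  have := card_sur_le_prod (ClassGroup (𝓞 (K D))) p hp r e
  unfold tors
  exact_mod_cast this

end Pool.Agent.K1H95.HM
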